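import Pool.Agent.Helper30.CIR.Goals
import Mathlib

/-!
# Project CIR (MP_f32c9c_an), packet DER: the derivative of `hh` along the flow
-/

set_option autoImplicit false

open Set Filter Topology MeasureTheory

open scoped ContDiff

namespace Pool.Agent.Helper57.CIR

open Pool.Agent.Helper56.RZ Pool.Agent.Helper30.CIR

/-- `1 - 2 Re (a / (1 + a)) = (1 - ‖a‖²) / ‖1 + a‖²` -/
lemma kap_alg (a : ℂ) (h : 1 + a ≠ 0) :
    1 - 2 * (a / (1 + a)).re = (1 - ‖a‖ ^ 2) / ‖1 + a‖ ^ 2 := by
  have h1 : Complex.normSq (1 + a) ≠ 0 := by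
    simpa [Complex.normSq_eq_zero] using h
  rw [Complex.sq_norm, Complex.sq_norm, Complex.div_re]
  have h2 : Complex.normSq (1 + a) = (1 + a.re) * (1 + a.re) + a.im * a.im := by
    rw [Complex.normSq_apply]; simp
  have h3 : Complex.normSq a = a.re * a.re + a.im * a.im := Complex.normSq_apply a
  have h4 : (1 + a).re = 1 + a.re := by simp
  have h5 : (1 + a).im = a.im := by simp
  rw [eq_div_iff h1, h4, h5, h3]
  field_simp
  rw [h2]
  ring

/-- norm bounds -/
lemma norm_bounds (a : ℂ) (h : ‖a‖ ≤ 1 / 2) : 1 / 2 ≤ ‖1 + a‖ ∧ ‖1 + a‖ ≤ 3 / 2 := by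
  constructor
  · have h1 : ‖(1 : ℂ)‖ ≤ ‖1 + a‖ + ‖a‖ := by
      calc ‖(1 : ℂ)‖ = ‖(1 + a) - a‖ := by ring_nf
        _ ≤ ‖1 + a‖ + ‖a‖ := norm_sub_le _ _
    rw [norm_one] at h1
    linarith
  · have h1 : ‖1 + a‖ ≤ ‖(1 : ℂ)‖ + ‖a‖ := norm_add_le _ _
    rw [norm_one] at h1
    linarith

/-- `1 + a` is in the slit plane -/
lemma slit (a : ℂ) (h : ‖a‖ ≤ 1 / 2) : 1 + a ∈ Complex.slitPlane := by
  rw [Complex.mem_slitPlane_iff]
  left
  have h1 := Complex.abs_re_le_norm a
  have h2 := neg_abs_le a.re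
  have h3 : (1 + a).re = 1 + a.re := by simp
  rw [h3]
  linarith

/-- the derivative of the argument along the circle -/
lemma der_arg (a : ℂ) (om : ℝ) (hom : 0 < om) (h : ‖a‖ ≤ 1 / 2) :
    HasDerivAt (fun t : ℝ =>
      -(1 + Complex.exp ((2 * Real.pi * om * t : ℝ) * Complex.I) * a).arg / (Real.pi * om))
      (-2 * (a / (1 + a)).re) 0 := by
  have hpi : (0 : ℝ) < Real.pi := Real.pi_pos
  have e1 : HasDerivAt (fun t : ℝ => ((2 * Real.pi * om * t : ℝ) : ℂ) * Complex.I)
      ((2 * Real.pi * om : ℝ) * Complex.I) 0 := by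
    have h0 : HasDerivAt (fun t : ℝ => 2 * Real.pi * om * t) (2 * Real.pi * om) 0 := by
      simpa using (hasDerivAt_id (0 : ℝ)).const_mul (2 * Real.pi * om)
    exact (h0.ofReal_comp).mul_const Complex.I
  have e2 : HasDerivAt (fun t : ℝ =>
      1 + Complex.exp ((2 * Real.pi * om * t : ℝ) * Complex.I) * a)
      (((2 * Real.pi * om : ℝ) * Complex.I) * a) 0 := by
    have h0 := (e1.cexp.mul_const a).const_add 1
    have h1 : Complex.exp (((2 * Real.pi * om * (0 : ℝ) : ℝ) : ℂ) * Complex.I) = 1 := by simp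
    rw [h1, one_mul] at h0
    exact h0
  have e3 : (1 + Complex.exp (((2 * Real.pi * om * (0 : ℝ) : ℝ) : ℂ) * Complex.I) * a)
      = 1 + a := by simp
  have hs : (1 + Complex.exp (((2 * Real.pi * om * (0 : ℝ) : ℝ) : ℂ) * Complex.I) * a)
      ∈ Complex.slitPlane := by
    rw [e3]; exact slit a h
  have e4 := e2.clog_real hs
  rw [e3] at e4
  have e5 := Complex.imCLM.hasFDerivAt.comp_hasDerivAt (0 : ℝ) e4
  have e6 : HasDerivAt (fun t : ℝ =>
      (1 + Complex.exp ((2 * Real.pi * om * t : ℝ) * Complex.I) * a).arg)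
      (((((2 * Real.pi * om : ℝ) : ℂ) * Complex.I) * a / (1 + a)).im) 0 := by
    have : (fun t : ℝ => (1 + Complex.exp ((2 * Real.pi * om * t : ℝ) * Complex.I) * a).arg)
        = (Complex.imCLM ∘ fun t : ℝ =>
          Complex.log (1 + Complex.exp ((2 * Real.pi * om * t : ℝ) * Complex.I) * a)) := by
      funext t
      simp [Complex.log_im]
    rw [this]
    exact e5
  have e7 := (e6.neg).div_const (Real.pi * om)
  have e8 : (((((2 * Real.pi * om : ℝ) : ℂ) * Complex.I) * a / (1 + a)).im)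
      = 2 * Real.pi * om * (a / (1 + a)).re := by
    have : ((((2 * Real.pi * om : ℝ) : ℂ) * Complex.I) * a / (1 + a))
        = ((2 * Real.pi * om : ℝ) : ℂ) * (Complex.I * (a / (1 + a))) := by ring
    rw [this, Complex.im_ofReal_mul]; congr 1; simp [Complex.mul_im]
  rw [e8] at e7
  have e9 : -(2 * Real.pi * om * (a / (1 + a)).re) / (Real.pi * om) = -2 * (a / (1 + a)).re := by
    field_simp
  rw [e9] at e7
  exact e7

/-- packet DER -/
theorem gDER : StmtXF → StmtDIF → Pool.Agent.Helper30.CIR.StmtDER := by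
  intro hXF hDIF K s M A F om c th h1s hs hD hc
  have ha : ∀ x ∈ M, ‖(c : ℂ) * F x‖ ≤ 1 / 2 := by
    intro x hx
    rw [norm_mul, Complex.norm_real, Real.norm_eq_abs]
    have h1 := hD.le1 x hx
    have h2 := norm_nonneg (F x)
    have h3 := abs_nonneg c
    nlinarith
  have hne : ∀ x ∈ M, 1 + (c : ℂ) * F x ≠ 0 := by
    intro x hx h0
    have h1 := (norm_bounds _ (ha x hx)).1
    rw [h0, norm_zero] at h1
    linarith
  have hsq : ∀ x, ‖(c : ℂ) * F x‖ ^ 2 = c ^ 2 * ‖F x‖ ^ 2 := by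
    intro x
    rw [norm_mul, Complex.norm_real, mul_pow, Real.norm_eq_abs, sq_abs]
  refine ⟨?_, ?_, ?_⟩
  · intro x hx
    obtain ⟨hdiff, -, -⟩ := hDIF K s M A F om c th hD hc hs
    obtain ⟨-, hX⟩ := hXF K s M A h1s hD.flow
    obtain ⟨-, -, hcurve, -⟩ := hX x hx
    refine hcurve (hh A c om th F) x
      (fun t => (th + -(1 + Complex.exp ((2 * Real.pi * om * t : ℝ) * Complex.I) *
        ((c : ℂ) * F x)).arg / (Real.pi * om)) + t) (kap c F x) hdiff.maps
      (hdiff.smooth.of_le h1s) hx ?_ ?_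
    · refine Eventually.of_forall fun t => ?_
      have h1 : F (A t x) = Complex.exp ((2 * Real.pi * om * t : ℝ) * Complex.I) * F x :=
        hD.eig.2 t x hx
      have h2 : hh A c om th F (A t x) = A (th + del c om F (A t x)) (A t x) := rfl
      rw [h2, ← hD.flow.add _ _ x hx]
      have h3 : del c om F (A t x) = -(1 + Complex.exp ((2 * Real.pi * om * t : ℝ) * Complex.I) *
        ((c : ℂ) * F x)).arg / (Real.pi * om) := by
        unfold del
        rw [h1]
        have : (c : ℂ) * (Complex.exp ((2 * Real.pi * om * t : ℝ) * Complex.I) * F x)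
            = Complex.exp ((2 * Real.pi * om * t : ℝ) * Complex.I) * ((c : ℂ) * F x) := by ring
        rw [this]
      rw [h3]
    · have h1 := ((der_arg ((c : ℂ) * F x) om hD.pos (ha x hx)).const_add th).add
        (hasDerivAt_id (0 : ℝ))
      have h2 : -2 * ((c : ℂ) * F x / (1 + (c : ℂ) * F x)).re + 1 = kap c F x := by
        have h3 := kap_alg _ (hne x hx)
        unfold kap
        rw [← hsq x]
        linarith
      rw [h2] at h1
      exact h1
  · have hF : ContinuousOn F M := hD.eig.1.continuousOn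
    unfold kap
    refine ContinuousOn.div ?_ ?_ ?_
    · exact continuousOn_const.sub (continuousOn_const.mul (hF.norm.pow 2))
    · exact (continuousOn_const.add (continuousOn_const.mul hF)).norm.pow 2
    · intro x hx
      have := hne x hx
      positivity
  · intro x hx
    have h1 := ha x hx
    obtain ⟨h2, h3⟩ := norm_bounds _ h1
    unfold kap
    rw [← hsq x]
    have h4 := norm_nonneg ((c : ℂ) * F x)
    have h5 : (0 : ℝ) < ‖1 + (c : ℂ) * F x‖ ^ 2 := by
      have := hne x hx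
      positivity
    constructor
    · rw [le_div_iff₀ h5]
      nlinarith
    · rw [div_le_iff₀ h5]
      nlinarith

end Pool.Agent.Helper57.CIR
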